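import Pool.Agent.Lib.MP_688fd0_co.LIN.All
import Pool.Agent.Lib.MP_688fd0_co.LP.VT.Walk

/-!
Generator sequences of linear length with pairwise distinct partial products, in all finite groups.
-/

set_option autoImplicit false

namespace Pool.Agent.Results.MP_688fd0_co.AllLinearCycle

universe u

open Pool.Agent.Lib.MP_688fd0_co.LPV
open Pool.Agent.Lib.MP_688fd0_co.LP (Symm cay cay_adj)
open Pool.Agent.Lib.MP_688fd0_co.LIN

/-- There is an absolute constant `c > 0` such that for every finite group `Γ` and every nonempty symmetric generating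
set `A` of `Γ` there are `k ≥ c |Γ|` elements `a 0, ..., a (k-1)` of `A` whose `k` partial products are pairwise
distinct and whose product is `1`; for `|Γ| ≥ 3` also `k ≥ 3`, so the partial products form a cycle of the Cayley
graph. -/
theorem result : ∃ c : ℝ, 0 < c ∧ ∀ (Γ : Type u) [Group Γ] [Fintype Γ] (A : Set Γ), A.Nonempty →
    (∀ x ∈ A, x⁻¹ ∈ A) → Subgroup.closure A = ⊤ →
    ∃ (k : ℕ) (a : Fin k → Γ), (∀ i, a i ∈ A) ∧
      Function.Injective (fun j : Fin k => ((List.ofFn a).take (j + 1)).prod) ∧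
      (List.ofFn a).prod = 1 ∧ (3 ≤ Fintype.card Γ → 3 ≤ k) ∧ c * (Fintype.card Γ : ℝ) ≤ k := by
  classical
  obtain ⟨c, hc, H⟩ := all_main1c.{u}
  refine ⟨min c (1 / 2), by positivity, ?_⟩
  intro Γ _ _ A hne hA hgen
  have hnR : (0 : ℝ) < Fintype.card Γ := by
    have : 0 < Fintype.card Γ := Fintype.card_pos
    exact_mod_cast this
  rcases Nat.lt_or_ge (Fintype.card Γ) 3 with hn | hn
  · obtain ⟨k, a, h1, h2, h3, h4⟩ := long_seq A hne hA hgen
    refine ⟨k, a, h1, h2, h3, fun h => absurd h (by omega), ?_⟩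
    have h5 : (0 : ℝ) < k := lt_of_lt_of_le (by positivity) h4
    have h6 : (1 : ℝ) ≤ k := by
      have : 0 < k := by exact_mod_cast h5
      exact_mod_cast this
    have h7 : (Fintype.card Γ : ℝ) ≤ 2 := by exact_mod_cast (by omega : Fintype.card Γ ≤ 2)
    calc min c (1 / 2) * (Fintype.card Γ : ℝ) ≤ 1 / 2 * 2 := by
          gcongr
          exact min_le_right _ _
      _ = 1 := by norm_num
      _ ≤ k := h6
  · have hS : Symm (insert 1 A).toFinset := by
      refine ⟨by simp, ?_⟩
      intro x hx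
      rw [Set.mem_toFinset] at hx ⊢
      rcases hx with rfl | hx
      · left; simp
      · right; exact hA x hx
    have htop : Subgroup.closure (((insert 1 A).toFinset : Finset Γ) : Set Γ) = ⊤ := by
      rw [Set.coe_toFinset, eq_top_iff, ← hgen]
      exact Subgroup.closure_mono (Set.subset_insert _ _)
    obtain ⟨cy, hcy, hl⟩ := H Γ (insert 1 A).toFinset hS htop hn
    have hle : cay (insert 1 A).toFinset ≤ cayS A := by
      intro x y hxy
      rw [cay_adj hS, Set.mem_toFinset] at hxy
      rw [cayS_adj hA]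
      refine ⟨hxy.1, hxy.2.resolve_left ?_⟩
      intro h
      exact hxy.1 (inv_mul_eq_one.1 h)
    have hcy' := H18.cyc_mono_graph hle hcy
    obtain ⟨a, h1, h2, h3⟩ := seq_of_cyc hA hcy'
    refine ⟨cy.length, a, h1, h2, h3, fun _ => hcy'.2.1, le_trans ?_ hl⟩
    exact mul_le_mul_of_nonneg_right (min_le_left _ _) hnR.le

end Pool.Agent.Results.MP_688fd0_co.AllLinearCycle
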