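import Pool.Agent.Lib.MP_688fd0_co.SQ5.H23.AllAsm
import Pool.Agent.Lib.MP_688fd0_co.SQ5.H23.Shrink
import Pool.Agent.Lib.MP_688fd0_co.SQ5.H24.Dicho
import Pool.Agent.Lib.MP_688fd0_co.SQ5.H98.NearAF
import Pool.Agent.Lib.MP_688fd0_co.SQ5.H41.NiceC
import Pool.Agent.Lib.MP_688fd0_co.SQ4.H62.WorldCS
import Pool.Agent.Lib.MP_688fd0_co.SQ6.H23.All
import Pool.Agent.Lib.MP_688fd0_co.SQ3.H23.CountC
import Pool.Agent.Lib.MP_688fd0_co.SQ3.H41.BigPR
import Pool.Agent.Lib.MP_688fd0_co.SQ7.H71.B1Full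
import Pool.Agent.Lib.MP_688fd0_co.SQ5.FT.Final

/-!
For almost all `n`, every connected Cayley graph of every group of order `n` has a listing sequence (a Hamiltonian path).
-/

set_option autoImplicit false

namespace Pool.Agent.Results.MP_688fd0_co.AlmostAllGroups

open Pool.Agent.Lib.MP_688fd0_co.OSF
open Pool.Agent.Lib.MP_688fd0_co

universe u

/-- `P` is a good prime factor of `n`: `n = k m` with `m` squarefree and prime to `k`; every prime factor `p` of `m` is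
larger than `(k + Ω(n) + 2) ^ c`, divides no `q - 1` for a prime factor `q` of `n`, and no divisor `d > 1` of `n` all of
whose prime factors are smaller than `p` is `1` modulo `p`; `P` divides `m` and `P ≥ 2 ^ ((k + Ω(n)) ^ c)`. -/
def Good (c n P : ℕ) : Prop :=
  ∃ k m : ℕ, n = k * m ∧ k.Coprime m ∧ Squarefree m ∧
    (∀ p, p.Prime → p ∣ m → (k + n.primeFactorsList.length + 2) ^ c < p ∧
      (∀ q, q.Prime → q ∣ n → ¬ p ∣ q - 1) ∧
      ∀ d, d ∣ n → d ≡ 1 [MOD p] → (∀ q, q.Prime → q ∣ d → q < p) → d = 1) ∧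
    P.Prime ∧ P ∣ m ∧ 2 ^ ((k + n.primeFactorsList.length) ^ c) ≤ P

theorem good_iff {c n P : ℕ} (hc : 10 ≤ c) (hn : n ≠ 0) : Good c n P ↔ SQD.GoodX c n P := by
  constructor
  · rintro ⟨k, m, h1, h2, h3, h4, hP1, hP2, hP3⟩
    have hm : m ≠ 0 := by rintro rfl; exact hn (by rw [h1, mul_zero])
    have h5 : ∀ p ∈ m.primeFactors, (k + n.primeFactorsList.length + 2) ^ 10 < p := fun p hp =>
      (Nat.pow_le_pow_right (by omega) hc).trans_lt
        (h4 p (Nat.prime_of_mem_primeFactors hp) (Nat.dvd_of_mem_primeFactors hp)).1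
    refine ⟨k, m, ⟨⟨⟨h1, h2, h3, fun p hp => ?_, fun p hp => ?_, fun p hp q hq => ?_, fun p hp d hd1 hd2 hd3 => ?_⟩,
      fun p hp => ?_⟩, fun p hp => ?_⟩, Nat.mem_primeFactors.2 ⟨hP1, hP2, hm⟩, hP3⟩
    · have h6 := h5 p hp
      have h7 : (k + n.primeFactorsList.length + 2) ^ 2 ≤ (k + n.primeFactorsList.length + 2) ^ 10 :=
        Nat.pow_le_pow_right (by omega) (by norm_num)
      have h8 : (k + 2) ^ 2 ≤ (k + n.primeFactorsList.length + 2) ^ 2 := Nat.pow_le_pow_left (by omega) 2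
      have h9 : 4 * k < (k + 2) ^ 2 := by nlinarith
      omega
    · have h6 := h5 p hp
      have h7 : k + n.primeFactorsList.length + 2 ≤ (k + n.primeFactorsList.length + 2) ^ 10 :=
        Nat.le_self_pow (by omega) _
      omega
    · exact (h4 p (Nat.prime_of_mem_primeFactors hp) (Nat.dvd_of_mem_primeFactors hp)).2.1 q
        (Nat.prime_of_mem_primeFactors hq) (Nat.dvd_of_mem_primeFactors hq)
    · refine (h4 p (Nat.prime_of_mem_primeFactors hp) (Nat.dvd_of_mem_primeFactors hp)).2.2 d hd1 hd2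
        fun q hq hqd => hd3 q (Nat.mem_primeFactors.2 ⟨hq, hqd, ?_⟩)
      rintro rfl
      exact hn (Nat.eq_zero_of_zero_dvd hd1)
    · exact (Nat.pow_le_pow_left (by omega) 10).trans_lt (h5 p hp)
    · exact (h4 p (Nat.prime_of_mem_primeFactors hp) (Nat.dvd_of_mem_primeFactors hp)).1
  · rintro ⟨k, m, h, hP, hP4⟩
    have hm : m ≠ 0 := h.sq.ne_zero
    refine ⟨k, m, h.eq, h.cop, h.sq, fun p hp hpm => ?_, Nat.prime_of_mem_primeFactors hP,
      Nat.dvd_of_mem_primeFactors hP, hP4⟩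
    have hpm' := Nat.mem_primeFactors.2 ⟨hp, hpm, hm⟩
    exact ⟨h.mar p hpm', fun q hq hqn => h.act p hpm' q (Nat.mem_primeFactors.2 ⟨hq, hqn, hn⟩),
      fun d hd1 hd2 hd3 => h.syl p hpm' d hd1 hd2 fun q hq =>
        hd3 q (Nat.prime_of_mem_primeFactors hq) (Nat.dvd_of_mem_primeFactors hq)⟩

/-- `A` has a listing sequence: elements `a 0, ..., a (n - 1)` of `A`, `n` the order of `G`, whose partial products are
pairwise distinct. -/
def HasListing {G : Type u} [Group G] (A : Set G) : Prop :=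
  ∃ a : Fin (Nat.card G) → G, (∀ i, a i ∈ A) ∧
    Function.Injective (fun k : Fin (Nat.card G) => ((List.ofFn a).take (k + 1)).prod)

/-- Every nonempty symmetric generating set has a listing sequence. -/
def Strasser (G : Type u) [Group G] : Prop :=
  ∀ A : Set G, A.Nonempty → (∀ x ∈ A, x⁻¹ ∈ A) → Subgroup.closure A = ⊤ → HasListing A

/-- Some element of order `P` is centralised or inverted by every element of `G`. -/
def CentralisedOrInverted (P : ℕ) (G : Type u) [Group G] : Prop :=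
  ∃ y : G, orderOf y = P ∧ ∀ g : G, g * y * g⁻¹ = y ∨ g * y * g⁻¹ = y⁻¹

open Classical in
/-- A property of almost all positive integers (asymptotic density `1`). -/
def AlmostAll (S : ℕ → Prop) : Prop :=
  ∀ ε : ℝ, 0 < ε → ∃ x₀ : ℕ, ∀ x ≥ x₀, (((Finset.Icc 1 x).filter (fun n => ¬ S n)).card : ℝ) ≤ ε * x

/-- `P` is a large prime factor of `n`: `log₂ n ≤ (log₂ P) ^ t`. -/
def Large (t n P : ℕ) : Prop := P.Prime ∧ P ∣ n ∧ Nat.log 2 n ≤ Nat.log 2 P ^ t

/-- The main theorem. -/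
theorem result : ∃ c : ℕ,
    (∀ (G : Type u) [Group G] [Finite G] (P : ℕ) (y : G), Good c (Nat.card G) P → orderOf y = P →
      (∀ g : G, g * y * g⁻¹ = y ∨ g * y * g⁻¹ = y⁻¹) → Strasser G) ∧
    (∀ t : ℕ, 2 ≤ t → AlmostAll fun n =>
      (∀ P, Large t n P → Good c n P) ∧
      (∃ P, Large t n P ∧ ∀ (G : Type u) [Group G] [Finite G], Nat.card G = n → CentralisedOrInverted P G)) ∧
    AlmostAll fun n => ∀ (G : Type u) [Group G] [Finite G], Nat.card G = n → Strasser G := by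
  obtain ⟨c₁, h₁⟩ := SQD.listingAll.{u} SQ4.mainCAll SQ6.H23.twoH SQD.H24.dicho (SQD.b1Full_of SQ7.H71.b1fullB)
    SQ5.NA.invNearS SQ5.FT.invFarS
  have hmain : ∀ (G : Type u) [Group G] [Finite G] (P : ℕ) (y : G), SQD.GoodX (max c₁ 10) (Nat.card G) P →
      orderOf y = P → (∀ g : G, g * y * g⁻¹ = y ∨ g * y * g⁻¹ = y⁻¹) → Strasser G := by
    intro G _ _ P y hg hy hact A _ hA hgen
    exact h₁ G P (hg.mono (le_max_left _ _) Nat.card_pos.ne') y hy hact A hA hgen
  have hgood : ∀ t : ℕ, 2 ≤ t → SQ3.AlmostAll fun n =>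
      (∀ P, Large t n P → SQD.GoodX (max c₁ 10) n P) ∧ (∀ P, Large t n P → Good (max c₁ 10) n P) ∧
      (∃ P, Large t n P ∧ ∀ (G : Type u) [Group G] [Finite G], Nat.card G = n → CentralisedOrInverted P G) := by
    intro t ht
    refine ((SQD.almost_goodX SQ5.H41.niceCS (max c₁ 10) (t := t) (by omega)).and
      (SQ3.almostE.{u} SQ3.mainAll SQ3.niceMS SQ3.bigPS ht)).mono ?_
    rintro n hn ⟨h4, -, P, hP1, hP2, hP3, hP4⟩
    exact ⟨fun P hP => h4 P hP.1 hP.2.1 hP.2.2, fun P hP => (good_iff (by omega) hn).2 (h4 P hP.1 hP.2.1 hP.2.2),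
      ⟨P, ⟨hP1, hP2, hP3⟩, hP4⟩⟩
  refine ⟨max c₁ 10, ?_, ?_, ?_⟩
  · intro G _ _ P y hP hy hact
    exact hmain G P y ((good_iff (by omega) Nat.card_pos.ne').1 hP) hy hact
  · intro t ht
    exact (hgood t ht).mono fun n hn h => h.2
  · refine (hgood 2 le_rfl).mono ?_
    rintro n hn ⟨h1, -, P, hP, h3⟩ G _ _ hG
    obtain ⟨y, hy, hact⟩ := h3 G hG
    exact hmain G P y (hG ▸ h1 P hP) hy hact

end Pool.Agent.Results.MP_688fd0_co.AlmostAllGroups
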