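import Pool.Agent.Lib.MP_688fd0_co.DEN.H30.Main

/-!
Asymptotically complete generator sequences: connection sets with at least `C(ε)` elements, groups with a large
metabelian quotient, groups with an action in which the connection set has long cycles, and all groups whose order
lies in a certain set of natural density one.
-/

set_option autoImplicit false

namespace Pool.Agent.Results.MP_688fd0_co.AsymptoticCycle

universe u

open Pool.Agent.Lib.MP_688fd0_co.ASY
open Pool.Agent.Lib.MP_688fd0_co.MET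

/-- For every `0 < ε < 1` there are `C` and a set `D` of positive integers of natural density one such that for every
finite group `Γ` of order `n` and every symmetric generating set `A` there are `k ≥ (1 - ε) n` elements
`a 0, ..., a (k-1)` of `A`, `k ≥ 3`, with pairwise distinct partial products and product `1`, if

* `A` has at least `C` elements, or
* some subset `B` of `A` generates a subgroup `H` with `|H : H''| ≥ C` (for `B = A`: `|Γ : Γ''| ≥ C`), or
* some subgroup `K` acts transitively on a finite nonempty set `X`, and some permutation `σ` of `X` moves at least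
  `(1 - ε / 2) |X|` points, each by an element of `A ∩ K`, all its nontrivial cycles having length at least `C`, or
* `n` belongs to `D` (no condition on the group or on `A`). -/
theorem result : ∀ ε : ℝ, 0 < ε → ε < 1 → ∃ (C : ℕ) (D : Set ℕ),
    Filter.Tendsto (fun x : ℕ => (Nat.card {n : ℕ // 1 ≤ n ∧ n ≤ x ∧ n ∈ D} : ℝ) / x)
      Filter.atTop (nhds 1) ∧
    ∀ (Γ : Type u) [Group Γ] [Fintype Γ] (A : Set Γ),
    (∀ x ∈ A, x⁻¹ ∈ A) → Subgroup.closure A = ⊤ →
    (C ≤ Nat.card A ∨
      (∃ B ⊆ A, C ≤ (derivedSeries (Subgroup.closure B) 2).index) ∨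
      (∃ (K : Subgroup Γ) (X : Type u) (_ : Fintype X) (_ : MulAction K X) (σ : Equiv.Perm X),
        Nonempty X ∧ MulAction.IsPretransitive K X ∧
        (∀ x, σ x ≠ x → ∃ a : K, (a : Γ) ∈ A ∧ σ x = a • x) ∧
        (∀ x, σ x ≠ x → ∀ i, 0 < i → i < C → (σ ^ i) x ≠ x) ∧
        (1 - ε / 2) * (Fintype.card X : ℝ) ≤ Nat.card {x // σ x ≠ x}) ∨
      Fintype.card Γ ∈ D) →
    ∃ (k : ℕ) (a : Fin k → Γ), (∀ i, a i ∈ A) ∧
      Function.Injective (fun j : Fin k => ((List.ofFn a).take (j + 1)).prod) ∧
      (List.ofFn a).prod = 1 ∧ 3 ≤ k ∧ (1 - ε) * (Fintype.card Γ : ℝ) ≤ k := by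
  intro ε hε hε1
  obtain ⟨C, hC⟩ := H20.asym3.{u} ε hε hε1
  refine ⟨C, {n | Pool.Agent.Lib.MP_688fd0_co.DEN.Good.{u} ε n},
    Pool.Agent.Lib.MP_688fd0_co.DEN.almost_all_orders.{u} ε hε hε1, ?_⟩
  intro Γ _ _ A hA hgen h
  rcases h with h | h | h | h
  · obtain ⟨cy, hcy, hl⟩ := hC Γ A hA hgen (Or.inl h)
    exact H18.seq_of_cycle hA hcy hl
  · obtain ⟨cy, hcy, hl⟩ := hC Γ A hA hgen (Or.inr (Or.inl h))
    exact H18.seq_of_cycle hA hcy hl
  · obtain ⟨cy, hcy, hl⟩ := hC Γ A hA hgen (Or.inr (Or.inr h))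
    exact H18.seq_of_cycle hA hcy hl
  · exact h Γ rfl A hA hgen

end Pool.Agent.Results.MP_688fd0_co.AsymptoticCycle
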