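import Pool.Agent.Lib.MP_688fd0_co.TF.H18.All
import Pool.Agent.Lib.MP_688fd0_co.NC.All
import Pool.Agent.Lib.MP_688fd0_co.NC.Abel

/-!
Listing sequences go up from normal subgroups.

Let `G` be a finite group, `A` a symmetric generating set, `N` a normal subgroup of order at least three. If `A ∩ N` has a
listing sequence for `N`, then `A` has one for `G`; nothing is assumed on `G / N`. This is so when `A ∩ N` generates `N` and
either `N` is abelian or `A ∩ N` has at least `(log |N|) ^ (10 ^ 10)` elements. In the latter case, if `N = G`, there is a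
listing sequence with product `1`.
-/

set_option autoImplicit false

namespace Pool.Agent.Results.MP_688fd0_co.NormalSubgroup

open Pool.Agent.Lib.MP_688fd0_co.OSF
open Pool.Agent.Lib.MP_688fd0_co

universe u

/-- A listing sequence: elements `a 0, ..., a (n - 1)` of `A`, `n` the order of `G`, whose partial products are pairwise
distinct. -/
def HasListing {G : Type u} [Group G] (A : Set G) : Prop :=
  ∃ a : Fin (Nat.card G) → G, (∀ i, a i ∈ A) ∧
    Function.Injective (fun k : Fin (Nat.card G) => ((List.ofFn a).take (k + 1)).prod)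

/-- A listing sequence with product `1` (a Hamiltonian cycle if `G` has at least three elements). -/
def HasClosedListing {G : Type u} [Group G] (A : Set G) : Prop :=
  ∃ a : Fin (Nat.card G) → G, (∀ i, a i ∈ A) ∧
    Function.Injective (fun k : Fin (Nat.card G) => ((List.ofFn a).take (k + 1)).prod) ∧ (List.ofFn a).prod = 1

theorem closed_of_degree {N : Type u} [Group N] [Finite N] (B : Set N) (hB : ∀ x ∈ B, x⁻¹ ∈ B) (h3 : 3 ≤ Nat.card N)
    (hgen : Subgroup.closure B = ⊤) (hbig : Real.log (Nat.card N) ^ (10 ^ 10) ≤ Nat.card B) : HasClosedListing B := by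
  classical
  letI : Fintype N := Fintype.ofFinite N
  rw [Nat.card_eq_fintype_card] at h3 hbig
  obtain ⟨a, h1, h2, h4⟩ := TF.All.theoremF N B h3 hB hgen hbig
  unfold HasClosedListing
  rw [Nat.card_eq_fintype_card]
  exact ⟨a, h1, h2.injective, h4⟩

theorem closed_of_top {G : Type u} [Group G] (A : Set G) (h : HasClosedListing {x : (⊤ : Subgroup G) | (x : G) ∈ A}) :
    HasClosedListing A := by
  obtain ⟨a, h1, h2, h3⟩ := h
  have hc : Nat.card (⊤ : Subgroup G) = Nat.card G := Subgroup.card_top
  have key : ∀ m (_ : m = Nat.card (⊤ : Subgroup G)) (a : Fin m → (⊤ : Subgroup G)), (∀ i, (a i : G) ∈ A) →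
      Function.Injective (fun k : Fin m => ((List.ofFn a).take (k + 1)).prod) → (List.ofFn a).prod = 1 →
      ∃ b : Fin m → G, (∀ i, b i ∈ A) ∧
        Function.Injective (fun k : Fin m => ((List.ofFn b).take (k + 1)).prod) ∧ (List.ofFn b).prod = 1 := by
    intro m _ a h1 h2 h3
    have e : ∀ k, ((List.ofFn fun i => (a i : G)).take k).prod = (((List.ofFn a).take k).prod : (⊤ : Subgroup G)) := by
      intro k
      rw [show (List.ofFn fun i => (a i : G)) = (List.ofFn a).map (Subgroup.subtype ⊤) by
        rw [List.map_ofFn]; rfl, ← List.map_take, ← map_list_prod]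
      rfl
    refine ⟨fun i => a i, h1, fun i j hij => h2 ?_, ?_⟩
    · simp only [e] at hij
      exact Subtype.ext hij
    · have := e (List.ofFn a).length
      rw [List.take_length, h3] at this
      rw [List.take_of_length_le (by simp)] at this
      simpa using this
  obtain ⟨b, hb⟩ := key _ rfl a h1 h2 h3
  unfold HasClosedListing
  rw [← hc]
  exact ⟨b, hb⟩

theorem closure_subtype {G : Type u} [Group G] (A : Set G) (N : Subgroup G) (h : Subgroup.closure (A ∩ N) = N) :
    Subgroup.closure {x : N | (x : G) ∈ A} = ⊤ := by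
  have e : (Subtype.val '' {x : N | (x : G) ∈ A} : Set G) = A ∩ N := by
    ext g
    constructor
    · rintro ⟨x, hx, rfl⟩; exact ⟨hx, x.2⟩
    · rintro ⟨h1, h2⟩; exact ⟨⟨g, h2⟩, h1, rfl⟩
  have h4 : (Subgroup.closure {x : N | (x : G) ∈ A}).map N.subtype = (⊤ : Subgroup N).map N.subtype := by
    rw [MonoidHom.map_closure]
    show Subgroup.closure (Subtype.val '' {x : N | (x : G) ∈ A}) = _
    rw [e, h, ← MonoidHom.range_eq_map, Subgroup.range_subtype]
  exact Subgroup.map_injective N.subtype_injective h4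

theorem closed_of_degree' {G : Type u} [Group G] [Finite G] (A : Set G) (hsym : ∀ x ∈ A, x⁻¹ ∈ A) (N : Subgroup G)
    (h3 : 3 ≤ Nat.card N) (h : Subgroup.closure (A ∩ N) = N)
    (hbig : Real.log (Nat.card N) ^ (10 ^ 10) ≤ Nat.card (A ∩ N : Set G)) :
    HasClosedListing {x : N | (x : G) ∈ A} := by
  refine closed_of_degree _ (fun x hx => hsym _ hx) h3 (closure_subtype A N h) ?_
  have e : Nat.card {x : N | (x : G) ∈ A} = Nat.card (A ∩ N : Set G) :=
    Nat.card_congr ⟨fun x => ⟨x.1, x.2, x.1.2⟩, fun x => ⟨⟨x.1, x.2.2⟩, x.2.1⟩, fun x => rfl, fun x => rfl⟩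
  rw [e]
  exact hbig

theorem result (G : Type u) [Group G] [Finite G] (A : Set G) (hsym : ∀ x ∈ A, x⁻¹ ∈ A)
    (hgen : Subgroup.closure A = ⊤) (N : Subgroup G) (hN : N.Normal) (h3 : 3 ≤ Nat.card N) :
    (HasListing {x : N | (x : G) ∈ A} → HasListing A) ∧
      (Subgroup.closure (A ∩ N) = N → (∀ x ∈ N, ∀ y ∈ N, x * y = y * x) → HasListing A) ∧
      (Subgroup.closure (A ∩ N) = N → Real.log (Nat.card N) ^ (10 ^ 10) ≤ Nat.card (A ∩ N : Set G) →
        HasListing A ∧ (N = ⊤ → HasClosedListing A)) := by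
  refine ⟨fun h => NC.theoremN A hsym hgen N h3 h, fun h hab => NC.lst_of_abelian_normal A hsym hgen N hab h3 h,
    fun h hbig => ?_⟩
  have hcl := closed_of_degree' A hsym N h3 h hbig
  refine ⟨NC.theoremN A hsym hgen N h3 ?_, ?_⟩
  · obtain ⟨a, h1, h2, -⟩ := hcl
    exact ⟨a, h1, h2⟩
  · rintro rfl
    exact closed_of_top A hcl

end Pool.Agent.Results.MP_688fd0_co.NormalSubgroup
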